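import Pool.Agent.H71.HV.Targets

/-! Module BK of MP_5607ba_lc: right-invariant metrics. -/

set_option autoImplicit false

open Set Topology Filter
open scoped NNReal Pointwise

namespace Pool.Agent.H15.HV

open Pool.Agent.H71.HV

universe u

section

variable {G : Type u} [Group G]

/-- the size of a predicate -/
noncomputable def szP (P : ℕ → Prop) : ℝ≥0 :=
  open Classical in if h : ∃ n, ¬ P n then (1 / 2) ^ Nat.find h else 0

/-- the size of an element -/
noncomputable def sz (W : ℕ → Set G) (g : G) : ℝ≥0 := szP (fun n => g ∈ W n)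

theorem le_sz {W : ℕ → Set G} (hW : Antitone W) {g : G} {n : ℕ} :
    (1 / 2) ^ n ≤ sz W g ↔ g ∉ W n := by
  classical
  have hr : (1 / 2 : ℝ≥0) ∈ Ioo (0 : ℝ≥0) 1 := ⟨half_pos one_pos, NNReal.half_lt_self one_ne_zero⟩
  unfold sz szP
  split_ifs with h
  · rw [(pow_right_strictAnti₀ hr.1 hr.2).le_iff_ge, Nat.find_le_iff]
    exact ⟨fun ⟨m, hmn, hm⟩ hn => hm (hW hmn hn), fun h => ⟨n, le_rfl, h⟩⟩
  · push Not at h
    simp only [h, not_true, (pow_pos hr.1 _).not_ge]

theorem sz_eq {W : ℕ → Set G} {g : G} (h : ∃ n, g ∉ W n) :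
    ∃ m, g ∉ W m ∧ sz W g = (1 / 2) ^ m := by
  classical
  refine ⟨Nat.find h, Nat.find_spec h, ?_⟩
  unfold sz szP
  rw [dif_pos h]

theorem sz_inv {W : ℕ → Set G} (hi : ∀ n g, g⁻¹ ∈ W n ↔ g ∈ W n) (g : G) :
    sz W g⁻¹ = sz W g := by
  unfold sz
  congr 1
  funext n
  exact propext (hi n g)

theorem sz_one {W : ℕ → Set G} (h1 : ∀ n, (1 : G) ∈ W n) : sz W (1 : G) = 0 := by
  unfold sz szP
  rw [dif_neg]
  push Not
  exact h1

/-- the distance function -/
noncomputable def dd (W : ℕ → Set G) (a b : G) : ℝ≥0 := sz W (b * a⁻¹)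

theorem dd_mul (W : ℕ → Set G) (a b c : G) : dd W (a * c) (b * c) = dd W a b := by
  unfold dd
  congr 1
  group

theorem dd_self {W : ℕ → Set G} (h1 : ∀ n, (1 : G) ∈ W n) (a : G) : dd W a a = 0 := by
  unfold dd
  rw [mul_inv_cancel, sz_one h1]

theorem dd_comm {W : ℕ → Set G} (hi : ∀ n g, g⁻¹ ∈ W n ↔ g ∈ W n) (a b : G) :
    dd W a b = dd W b a := by
  unfold dd
  rw [← sz_inv hi]
  congr 1
  group

theorem dist_inv {W : ℕ → Set G} (h1 : ∀ n, (1 : G) ∈ W n) (hi : ∀ n g, g⁻¹ ∈ W n ↔ g ∈ W n)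
    (a b c : G) :
    @dist G (@PseudoMetricSpace.toDist G (PseudoMetricSpace.ofPreNNDist (dd W) (dd_self h1)
      (dd_comm hi))) (a * c) (b * c) =
    @dist G (@PseudoMetricSpace.toDist G (PseudoMetricSpace.ofPreNNDist (dd W) (dd_self h1)
      (dd_comm hi))) a b := by
  rw [PseudoMetricSpace.dist_ofPreNNDist, PseudoMetricSpace.dist_ofPreNNDist]
  congr 1
  symm
  have hs : Function.Surjective (fun l : List G => l.map (fun x => x * c)) := by
    intro l
    refine ⟨l.map (fun x => x * c⁻¹), ?_⟩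
    simp
  refine hs.iInf_congr _ fun l => ?_
  have e1 : (a * c :: l.map (fun x => x * c)) = (a :: l).map (fun x => x * c) := rfl
  have e2 : (l.map (fun x => x * c) ++ [b * c]) = (l ++ [b]).map (fun x => x * c) := by simp
  rw [e1, e2, List.zipWith_map]
  simp only [dd_mul]

end

theorem bk_holds : BKStmt.{u} := by
  intro G _ t _ _ _
  obtain ⟨V, hV, hVm⟩ := IsTopologicalGroup.exists_antitone_basis_nhds_one G
  set W : ℕ → Set G := fun n => V (2 * n) ∩ (V (2 * n))⁻¹ with hWdef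
  have hWV : ∀ n, W n ⊆ V (2 * n) := fun n => inter_subset_left
  have hWn : ∀ n, W n ∈ 𝓝 (1 : G) := by
    intro n
    refine inter_mem (hV.mem _) ?_
    exact inv_mem_nhds_one G (hV.mem _)
  have h1 : ∀ n, (1 : G) ∈ W n := fun n => mem_of_mem_nhds (hWn n)
  have hi : ∀ n (g : G), g⁻¹ ∈ W n ↔ g ∈ W n := by
    intro n g
    simp only [hWdef, mem_inter_iff, Set.mem_inv, inv_inv]
    exact and_comm
  have hanti : Antitone W := by
    intro m n hmn
    have := hV.antitone (show 2 * m ≤ 2 * n by omega)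
    exact inter_subset_inter this (Set.inv_subset_inv.mpr this)
  have h3 : ∀ n (x y z : G), x ∈ W (n + 1) → y ∈ W (n + 1) → z ∈ W (n + 1) →
      x * y * z ∈ V (2 * n) := by
    intro n x y z hx hy hz
    have e1 : x * y ∈ V (2 * n + 1) := hVm (2 * n + 1) (Set.mul_mem_mul (hWV _ hx) (hWV _ hy))
    have e2 : z ∈ V (2 * n + 1) := hV.antitone (by omega) (hWV _ hz)
    exact hVm (2 * n) (Set.mul_mem_mul e1 e2)
  have hmul : ∀ n (x y z : G), x ∈ W (n + 1) → y ∈ W (n + 1) → z ∈ W (n + 1) →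
      x * y * z ∈ W n := by
    intro n x y z hx hy hz
    refine ⟨h3 n x y z hx hy hz, ?_⟩
    rw [Set.mem_inv]
    have := h3 n z⁻¹ y⁻¹ x⁻¹ ((hi _ _).mpr hz) ((hi _ _).mpr hy) ((hi _ _).mpr hx)
    rwa [show (x * y * z)⁻¹ = z⁻¹ * y⁻¹ * x⁻¹ by group]
  let I := PseudoMetricSpace.ofPreNNDist (dd W) (dd_self h1) (dd_comm hi)
  have hdist_le : ∀ x y, @dist G I.toDist x y ≤ dd W x y :=
    PseudoMetricSpace.dist_ofPreNNDist_le _ _ _
  have hd_le : ∀ x y, ↑(dd W x y) ≤ 2 * @dist G I.toDist x y := by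
    refine PseudoMetricSpace.le_two_mul_dist_ofPreNNDist _ _ _ fun x₁ x₂ x₃ x₄ => ?_
    by_cases H : ∃ n, x₄ * x₁⁻¹ ∉ W n
    · obtain ⟨N, hN, e1⟩ := sz_eq H
      rw [show dd W x₁ x₄ = (1 / 2) ^ N from e1, ← div_le_iff₀' zero_lt_two,
        ← mul_one_div (_ ^ _), ← pow_succ]
      by_contra hcon
      rw [not_le, max_lt_iff, max_lt_iff] at hcon
      obtain ⟨a1, a2, a3⟩ := hcon
      have b1 : x₂ * x₁⁻¹ ∈ W (N + 1) := by
        by_contra h
        exact absurd ((le_sz hanti).mpr h) (not_le.mpr a1)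
      have b2 : x₃ * x₂⁻¹ ∈ W (N + 1) := by
        by_contra h
        exact absurd ((le_sz hanti).mpr h) (not_le.mpr a2)
      have b3 : x₄ * x₃⁻¹ ∈ W (N + 1) := by
        by_contra h
        exact absurd ((le_sz hanti).mpr h) (not_le.mpr a3)
      have := hmul _ _ _ _ b3 b2 b1
      rw [show x₄ * x₃⁻¹ * (x₃ * x₂⁻¹) * (x₂ * x₁⁻¹) = x₄ * x₁⁻¹ by group] at this
      exact hN this
    · have e1 : dd W x₁ x₄ = 0 := by
        unfold dd sz szP
        rw [dif_neg H]
      rw [e1]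
      exact zero_le
  have hr0 : (0 : ℝ) < 1 / 2 := by norm_num
  have hr1 : (1 / 2 : ℝ) < 1 := by norm_num
  have htop : I.toUniformSpace.toTopologicalSpace = t := by
    refine TopologicalSpace.ext_nhds fun x => ?_
    have hb1 := @Metric.nhds_basis_ball_pow G I x _ hr0 hr1
    have hb0 : (@nhds G t 1).HasBasis (fun _ : ℕ => True) W := by
      refine ⟨fun O => ⟨fun hO => ?_, fun ⟨n, _, hn⟩ => mem_of_superset (hWn n) hn⟩⟩
      obtain ⟨n, -, hn⟩ := hV.toHasBasis.mem_iff.mp hO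
      exact ⟨n, trivial, ((hWV n).trans (hV.antitone (by omega))).trans hn⟩
    have hb2 : (@nhds G t x).HasBasis (fun _ : ℕ => True) (fun n => {y | y * x⁻¹ ∈ W n}) := by
      rw [← nhds_translation_mul_inv x]
      exact hb0.comap _
    refine hb1.ext hb2 ?_ ?_
    · intro n _
      refine ⟨n, trivial, fun y hy => ?_⟩
      have h2 : dd W x y < (1 / 2) ^ n := by
        rw [← not_le]
        exact fun h => (le_sz hanti).mp h hy
      have h3 : ((dd W x y : ℝ≥0) : ℝ) < (1 / 2) ^ n := by exact_mod_cast h2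
      have h4 := hdist_le x y
      change @dist G I.toDist y x < (1 / 2) ^ n
      rw [@dist_comm G I y x]
      linarith
    · intro n _
      refine ⟨n + 1, trivial, fun y hy => ?_⟩
      change @dist G I.toDist y x < (1 / 2) ^ (n + 1) at hy
      rw [@dist_comm G I y x] at hy
      have h4 := hd_le x y
      have h3 : ((dd W x y : ℝ≥0) : ℝ) < (1 / 2) ^ n := by
        rw [pow_succ] at hy
        linarith
      have h2 : dd W x y < (1 / 2) ^ n := by exact_mod_cast h3
      by_contra h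
      exact absurd ((le_sz hanti).mpr h) (not_le.mpr h2)
  have hT0 : @T0Space G I.toUniformSpace.toTopologicalSpace := by
    rw [htop]
    infer_instance
  refine ⟨@MetricSpace.ofT0PseudoMetricSpace G I hT0, htop, ?_⟩
  intro a b c
  exact dist_inv h1 hi a b c

end Pool.Agent.H15.HV
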