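import Pool.Agent.H71.HV.Targets2

/-! Module COL of MP_5607ba_lc. -/

set_option autoImplicit false

namespace Pool.Agent.H15.HV

open Pool.Agent.H71.HV Order

/-- every colour is dense -/
def Dn (c : ℚ → ℕ) : Prop := ∀ n a b, a < b → ∃ q, a < q ∧ q < b ∧ c q = n

/-- coloured finite partial isomorphisms -/
def CP (c₁ c₂ : ℚ → ℕ) : Type :=
  {f : Finset (ℚ × ℚ) // (∀ x ∈ f, ∀ y ∈ f, cmp x.1 y.1 = cmp x.2 y.2) ∧ ∀ x ∈ f, c₁ x.1 = c₂ x.2}

instance (c₁ c₂ : ℚ → ℕ) : Preorder (CP c₁ c₂) := inferInstanceAs (Preorder (Subtype _))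

instance (c₁ c₂ : ℚ → ℕ) : Inhabited (CP c₁ c₂) := ⟨⟨∅, by simp⟩⟩

variable {c₁ c₂ : ℚ → ℕ}

theorem exists_across (h2 : Dn c₂) (f : CP c₁ c₂) (a : ℚ) :
    ∃ b : ℚ, (∀ p ∈ f.val, cmp p.1 a = cmp p.2 b) ∧ c₁ a = c₂ b := by
  by_cases h : ∃ b, (a, b) ∈ f.val
  · obtain ⟨b, hb⟩ := h
    exact ⟨b, fun p hp ↦ f.prop.1 _ hp _ hb, f.prop.2 _ hb⟩
  have h1 :
    ∀ x ∈ {p ∈ f.val | p.fst < a}.image Prod.snd,
      ∀ y ∈ {p ∈ f.val | a < p.fst}.image Prod.snd, x < y := by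
    intro x hx y hy
    rw [Finset.mem_image] at hx hy
    rcases hx with ⟨p, hp1, rfl⟩
    rcases hy with ⟨q, hq1, rfl⟩
    rw [Finset.mem_filter] at hp1 hq1
    rw [← lt_iff_lt_of_cmp_eq_cmp (f.prop.1 _ hp1.1 _ hq1.1)]
    exact lt_trans hp1.right hq1.right
  obtain ⟨b1, hb1, hb1'⟩ := exists_between_finsets _ _ h1
  obtain ⟨b2, hb2, hb2'⟩ := exists_between_finsets
    (insert b1 ({p ∈ f.val | p.fst < a}.image Prod.snd))
    ({p ∈ f.val | a < p.fst}.image Prod.snd) (by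
      intro x hx y hy
      rw [Finset.mem_insert] at hx
      rcases hx with rfl | hx
      · exact hb1' _ hy
      · exact h1 x hx y hy)
  obtain ⟨b, hb, hb', hc⟩ := h2 (c₁ a) b1 b2 (hb2 _ (Finset.mem_insert_self _ _))
  refine ⟨b, ?_, hc.symm⟩
  rintro ⟨p1, p2⟩ hp
  have : p1 ≠ a := fun he ↦ h ⟨p2, he ▸ hp⟩
  rcases lt_or_gt_of_ne this with hl | hr
  · have : p1 < a ∧ p2 < b :=
      ⟨hl, (hb1 _ (Finset.mem_image.mpr ⟨(p1, p2), Finset.mem_filter.mpr ⟨hp, hl⟩, rfl⟩)).trans hb⟩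
    rw [← cmp_eq_lt_iff, ← cmp_eq_lt_iff] at this
    exact this.1.trans this.2.symm
  · have : a < p1 ∧ b < p2 :=
      ⟨hr, hb'.trans (hb2' _ (Finset.mem_image.mpr
        ⟨(p1, p2), Finset.mem_filter.mpr ⟨hp, hr⟩, rfl⟩))⟩
    rw [← cmp_eq_gt_iff, ← cmp_eq_gt_iff] at this
    exact this.1.trans this.2.symm

/-- the inverse partial isomorphism -/
def comm (f : CP c₁ c₂) : CP c₂ c₁ :=
  ⟨f.val.image Prod.swap, by
    constructor
    · intro x hx y hy
      rw [Finset.mem_image] at hx hy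
      obtain ⟨x, hx, rfl⟩ := hx
      obtain ⟨y, hy, rfl⟩ := hy
      exact (f.prop.1 x hx y hy).symm
    · intro x hx
      rw [Finset.mem_image] at hx
      obtain ⟨x, hx, rfl⟩ := hx
      exact (f.prop.2 x hx).symm⟩

theorem mem_comm (f : CP c₁ c₂) (a b : ℚ) : (a, b) ∈ (comm f).val ↔ (b, a) ∈ f.val := by
  unfold comm
  simp only [Finset.mem_image]
  constructor
  · rintro ⟨⟨x, y⟩, hx, h⟩
    simp only [Prod.swap_prod_mk, Prod.mk.injEq] at h
    obtain ⟨rfl, rfl⟩ := h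
    exact hx
  · intro h
    exact ⟨(b, a), h, rfl⟩

/-- defined at `a` -/
def defL (h2 : Dn c₂) (a : ℚ) : Cofinal (CP c₁ c₂) where
  carrier := {f | ∃ b : ℚ, (a, b) ∈ f.val}
  isCofinal f := by
    obtain ⟨b, a_b, hc⟩ := exists_across h2 f a
    refine
      ⟨⟨insert (a, b) f.val, fun p hp q hq ↦ ?_, fun p hp ↦ ?_⟩, ⟨b, Finset.mem_insert_self _ _⟩,
        Finset.subset_insert _ _⟩
    · rw [Finset.mem_insert] at hp hq
      rcases hp with (rfl | pf) <;> rcases hq with (rfl | qf)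
      · simp only [cmp_self_eq_eq]
      · rw [cmp_eq_cmp_symm]
        exact a_b _ qf
      · exact a_b _ pf
      · exact f.prop.1 _ pf _ qf
    · rw [Finset.mem_insert] at hp
      rcases hp with rfl | pf
      · exact hc
      · exact f.prop.2 _ pf

/-- defined at `b` on the right -/
def defR (h1 : Dn c₁) (b : ℚ) : Cofinal (CP c₁ c₂) where
  carrier := {f | ∃ a : ℚ, (a, b) ∈ f.val}
  isCofinal f := by
    rcases (defL (c₁ := c₂) (c₂ := c₁) h1 b).isCofinal (comm f) with ⟨f', ⟨a, ha⟩, hl⟩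
    refine ⟨comm f', ⟨a, (mem_comm f' a b).mpr ha⟩, ?_⟩
    intro x hx
    rw [← Prod.mk.eta (p := x), mem_comm]
    apply hl
    rw [mem_comm]
    exact hx

theorem exists_iso (h1 : Dn c₁) (h2 : Dn c₂) : ∃ σ : Gam, ∀ q, c₁ q = c₂ (σ q) := by
  classical
  let tc : ℚ ⊕ ℚ → Cofinal (CP c₁ c₂) := fun p ↦ Sum.recOn p (defL h2) (defR h1)
  let I : Ideal (CP c₁ c₂) := idealOfCofinals default tc
  have hF : ∀ a : ℚ, ∃ b : ℚ, ∃ f ∈ I, (a, b) ∈ Subtype.val f := by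
    intro a
    obtain ⟨f, ⟨b, hb⟩, hf⟩ := cofinal_meets_idealOfCofinals default tc (Sum.inl a)
    exact ⟨b, f, hf, hb⟩
  have hG : ∀ b : ℚ, ∃ a : ℚ, ∃ f ∈ I, (a, b) ∈ Subtype.val f := by
    intro b
    obtain ⟨f, ⟨a, ha⟩, hf⟩ := cofinal_meets_idealOfCofinals default tc (Sum.inr b)
    exact ⟨a, f, hf, ha⟩
  choose F hF using hF
  choose H hG using hG
  refine ⟨OrderIso.ofCmpEqCmp F H fun a b ↦ ?_, fun q ↦ ?_⟩
  · obtain ⟨f, hf, ha⟩ := hF a
    obtain ⟨g, hg, hb⟩ := hG b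
    obtain ⟨m, _, fm, gm⟩ := I.directed _ hf _ hg
    exact m.prop.1 (a, _) (fm ha) (_, b) (gm hb)
  · obtain ⟨f, hf, ha⟩ := hF q
    exact f.prop.2 _ ha

/-- the colour -/
noncomputable def col (q : ℚ) : ℕ := (padicValRat 2 q).natAbs

theorem dn_col : Dn col := by
  intro n a b hab
  -- a large power of three
  obtain ⟨j, hj⟩ := pow_unbounded_of_one_lt (2 / (b - a)) (show (1 : ℚ) < 3 by norm_num)
  set M : ℚ := 2 ^ n * 3 ^ j with hM
  have hM0 : 0 < M := by positivity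
  have hba : 0 < b - a := by linarith
  have hM2 : 2 < M * (b - a) := by
    have h1 : 2 < 3 ^ j * (b - a) := by
      rw [div_lt_iff₀ hba] at hj
      exact hj
    have h2 : (1 : ℚ) ≤ 2 ^ n := one_le_pow₀ (by norm_num)
    calc (2 : ℚ) < 3 ^ j * (b - a) := h1
      _ = 1 * (3 ^ j * (b - a)) := by ring
      _ ≤ 2 ^ n * (3 ^ j * (b - a)) := by
        apply mul_le_mul_of_nonneg_right h2
        positivity
      _ = M * (b - a) := by rw [hM]; ring
  -- an odd integer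
  set t : ℤ := ⌊(a * M - 1) / 2⌋ + 1 with ht
  have ht1 : (a * M - 1) / 2 < t := by
    rw [ht]; push_cast; exact Int.lt_floor_add_one _
  have ht2 : (t : ℚ) ≤ (a * M - 1) / 2 + 1 := by
    rw [ht]; push_cast
    have := Int.floor_le ((a * M - 1) / 2)
    linarith
  set k : ℤ := 2 * t + 1 with hk
  have hk1 : a * M < k := by rw [hk]; push_cast; linarith
  have hk2 : (k : ℚ) < b * M := by
    have : (k : ℚ) ≤ a * M + 2 := by rw [hk]; push_cast; linarith
    nlinarith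
  have hk0 : k ≠ 0 := by omega
  refine ⟨k / M, ?_, ?_, ?_⟩
  · rwa [lt_div_iff₀ hM0]
  · rwa [div_lt_iff₀ hM0]
  · unfold col
    have hkq : (k : ℚ) ≠ 0 := by exact_mod_cast hk0
    have : Fact (Nat.Prime 2) := ⟨Nat.prime_two⟩
    rw [padicValRat.div hkq hM0.ne', hM, padicValRat.mul (by positivity) (by positivity),
      padicValRat.pow (q := (2 : ℚ)), padicValRat.pow (q := (3 : ℚ))]
    have e1 : padicValRat 2 (k : ℚ) = 0 := by
      rw [padicValRat.of_int]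
      have : padicValInt 2 k = 0 := by
        apply padicValInt.eq_zero_of_not_dvd
        omega
      rw [this]; rfl
    have e2 : padicValRat 2 (2 : ℚ) = 1 := by
      have := padicValRat.self (p := 2) (by norm_num)
      exact_mod_cast this
    have e3 : padicValRat 2 (3 : ℚ) = 0 := by
      have h : ((3 : ℕ) : ℚ) = 3 := by norm_num
      rw [← h, padicValRat.of_nat]
      have : padicValNat 2 3 = 0 := padicValNat.eq_zero_of_not_dvd (by norm_num)
      rw [this]; rfl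
    rw [e1, e2, e3]
    simp

theorem col_holds : ColStmt := by
  refine ⟨col, dn_col, fun p ↦ ?_⟩
  have h1 : Dn (fun q ↦ p (col q)) := by
    intro n a b hab
    obtain ⟨q, h1, h2, h3⟩ := dn_col (p.symm n) a b hab
    refine ⟨q, h1, h2, ?_⟩
    simp only [h3, Equiv.apply_symm_apply]
  obtain ⟨σ, hσ⟩ := exists_iso h1 dn_col
  exact ⟨σ, fun q ↦ (hσ q).symm⟩

end Pool.Agent.H15.HV
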