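import Pool.Agent.H71.HV.Targets

/-! Module T of MP_5607ba_lc: perfect set or a deciding condition. -/

set_option autoImplicit false

open Set Topology Filter

namespace Pool.Agent.H15.HV

open Pool.Agent.H71.HV Pool.Agent.H71.HV.Ctx

universe u v

/-- finitely many dense downward closed properties -/
theorem meet {Q I : Type*} [Preorder Q] (Φ : I → Q → Prop)
    (hd : ∀ i x y, y ≤ x → Φ i x → Φ i y) (c0 : Q) (hex : ∀ i, ∀ c ≤ c0, ∃ c' ≤ c, Φ i c')
    (s : Finset I) : ∃ c' ≤ c0, ∀ i ∈ s, Φ i c' := by
  classical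
  induction s using Finset.induction_on with
  | empty => exact ⟨c0, le_rfl, fun i hi => absurd hi (Finset.notMem_empty i)⟩
  | insert i s _ ih =>
    obtain ⟨c', hc', h⟩ := ih
    obtain ⟨c'', hc'', h'⟩ := hex i c' hc'
    refine ⟨c'', hc''.trans hc', fun k hk => ?_⟩
    rw [Finset.mem_insert] at hk
    rcases hk with rfl | hk
    · exact h'
    · exact hd k _ _ hc'' (h k hk)

section

variable {G : Type u} {Y : Type v} [Group G] [MetricSpace G] [TopologicalSpace Y] [MulAction G Y]
  {C : Ctx G Y} {P : Type} [Preorder P] {S : Stem P}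

theorem exists_dec (V k : ℕ) (p : P) : ∃ q ≤ p, C.Forces (S.stem q) V k ∨ C.Neg S q V k := by
  by_cases h : ∃ q ≤ p, C.Forces (S.stem q) V k
  · obtain ⟨q, hq, h⟩ := h
    exact ⟨q, hq, Or.inl h⟩
  · exact ⟨p, le_rfl, Or.inr fun q hq hf => h ⟨q, hq, hf⟩⟩

/-- one level of the tree -/
structure Lev (C : Ctx G Y) (S : Stem P) (n : ℕ) (c : (Fin n → Bool) → P)
    (c' : (Fin (n + 1) → Bool) → P) : Prop where
  le : ∀ w, c' w ≤ c (fun i => w i.castSucc)
  len : ∀ w, n + 1 ≤ (S.stem (c' w)).length
  dec : ∀ w j, j < n + 1 → C.Forces (S.stem (c' w)) (Nat.unpair j).1 (Nat.unpair j).2 ∨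
    C.Neg S (c' w) (Nat.unpair j).1 (Nat.unpair j).2
  split : ∀ w w', (∀ i : Fin n, w i.castSucc = w' i.castSucc) → w (Fin.last n) = false →
    w' (Fin.last n) = true → ∃ α, C.Sep S α (c' w) (c' w') C.top C.top
  task : ∀ w w', w ≠ w' → ∀ j, j < n + 1 → ∃ a ≤ c (fun i => w i.castSucc),
    ∃ b ≤ c (fun i => w' i.castSucc), ∀ β, (∃ a1 ≤ a, ∃ b1 ≤ b,
      C.Sep S β b1 a1 (Nat.unpair j).1 (Nat.unpair j).2) →
      C.Sep S β (c' w') (c' w) (Nat.unpair j).1 (Nat.unpair j).2

theorem exists_lev (h : ∀ w : P, ∃ a ≤ w, ∃ b ≤ w, ∃ α, C.Sep S α a b C.top C.top) (n : ℕ)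
    (c : (Fin n → Bool) → P) : ∃ c', Lev C S n c c' := by
  classical
  choose A hA B hB hAB using h
  -- splitting
  let c0 : (Fin (n + 1) → Bool) → P := fun w =>
    if w (Fin.last n) then B (c (fun i => w i.castSucc)) else A (c (fun i => w i.castSucc))
  have hc0 : ∀ w, c0 w ≤ c (fun i => w i.castSucc) := by
    intro w
    simp only [c0]
    split_ifs
    · exact hB _
    · exact hA _
  have hc0' : ∀ w w', (∀ i : Fin n, w i.castSucc = w' i.castSucc) → w (Fin.last n) = false →
      w' (Fin.last n) = true → ∃ α, C.Sep S α (c0 w) (c0 w') C.top C.top := by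
    intro w w' h1 h2 h3
    simp only [c0, h2, h3]
    have : (fun i : Fin n => w i.castSucc) = (fun i : Fin n => w' i.castSucc) := funext h1
    rw [this]
    exact hAB _
  -- length
  obtain ⟨c1, hc1, h1⟩ := meet (Q := (Fin (n + 1) → Bool) → P) (I := Fin (n + 1) → Bool)
    (fun w c => n + 1 ≤ (S.stem (c w)).length)
    (fun w x y hxy hx => by exact hx.trans (S.stem_mono (hxy w)).length_le) c0
    (fun w d _ => by
      obtain ⟨q, hq, hq'⟩ := S.stem_ext (d w) (n + 1)
      refine ⟨Function.update d w q, ?_, ?_⟩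
      · intro w'
        by_cases hw : w' = w
        · subst hw
          rw [Function.update_self]
          exact hq
        · rw [Function.update_of_ne hw]
      · rw [Function.update_self]
        exact hq') Finset.univ
  -- decisions
  obtain ⟨c2, hc2, h2⟩ := meet (Q := (Fin (n + 1) → Bool) → P)
    (I := (Fin (n + 1) → Bool) × ℕ)
    (fun x c => C.Forces (S.stem (c x.1)) (Nat.unpair x.2).1 (Nat.unpair x.2).2 ∨
      C.Neg S (c x.1) (Nat.unpair x.2).1 (Nat.unpair x.2).2)
    (fun w x y hxy hx => hx.imp (fun h => h.mono_stem (S.stem_mono (hxy _)))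
      (fun h => h.mono_le (hxy _))) c1
    (fun x d _ => by
      obtain ⟨q, hq, hq'⟩ := exists_dec (C := C) (S := S) (Nat.unpair x.2).1 (Nat.unpair x.2).2
        (d x.1)
      refine ⟨Function.update d x.1 q, ?_, ?_⟩
      · intro w'
        by_cases hw : w' = x.1
        · subst hw
          rw [Function.update_self]
          exact hq
        · rw [Function.update_of_ne hw]
      · simp only [Function.update_self]
        exact hq') (Finset.univ ×ˢ Finset.range (n + 1))
  -- tasks
  obtain ⟨c3, hc3, h3⟩ := meet (Q := (Fin (n + 1) → Bool) → P)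
    (I := ((Fin (n + 1) → Bool) × (Fin (n + 1) → Bool)) × ℕ)
    (fun x c' => x.1.1 ≠ x.1.2 → ∃ a ≤ c (fun i => x.1.1 i.castSucc),
      ∃ b ≤ c (fun i => x.1.2 i.castSucc), ∀ β, (∃ a1 ≤ a, ∃ b1 ≤ b,
        C.Sep S β b1 a1 (Nat.unpair x.2).1 (Nat.unpair x.2).2) →
        C.Sep S β (c' x.1.2) (c' x.1.1) (Nat.unpair x.2).1 (Nat.unpair x.2).2)
    (fun w x y hxy hx hne => by
      obtain ⟨a, ha, b, hb, h⟩ := hx hne
      exact ⟨a, ha, b, hb, fun β hβ => (h β hβ).mono_le (hxy _) (hxy _)⟩) c2
    (fun x d hd => by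
      by_cases hne : x.1.1 ≠ x.1.2
      swap
      · exact ⟨d, le_rfl, fun h => absurd h hne⟩
      have hda : d x.1.1 ≤ c (fun i => x.1.1 i.castSucc) :=
        (hd _).trans ((hc2 _).trans ((hc1 _).trans (hc0 _)))
      have hdb : d x.1.2 ≤ c (fun i => x.1.2 i.castSucc) :=
        (hd _).trans ((hc2 _).trans ((hc1 _).trans (hc0 _)))
      by_cases hβ : ({β | ∃ a1 ≤ d x.1.1, ∃ b1 ≤ d x.1.2,
          C.Sep S β b1 a1 (Nat.unpair x.2).1 (Nat.unpair x.2).2} : Set Ordinal.{0}).Nonempty
      swap
      · refine ⟨d, le_rfl, fun _ => ⟨_, hda, _, hdb, fun β h => ?_⟩⟩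
        exact absurd ⟨β, h⟩ hβ
      obtain ⟨β0, ⟨a1, ha1, b1, hb1, hs⟩, hmin⟩ := WellFounded.has_min
        (wellFounded_lt (α := Ordinal.{0})) _ hβ
      refine ⟨Function.update (Function.update d x.1.1 a1) x.1.2 b1, ?_, fun _ =>
        ⟨_, hda, _, hdb, fun β h => ?_⟩⟩
      · intro w'
        by_cases hw2 : w' = x.1.2
        · subst hw2
          rw [Function.update_self]
          exact hb1
        · rw [Function.update_of_ne hw2]
          by_cases hw1 : w' = x.1.1
          · subst hw1
            rw [Function.update_self]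
            exact ha1
          · rw [Function.update_of_ne hw1]
      · simp only [Function.update_self, Function.update_of_ne hne]
        exact hs.level (not_lt.mp (hmin β h))) (Finset.univ ×ˢ Finset.range (n + 1))
  refine ⟨c3, ⟨fun w => (hc3 w).trans ((hc2 w).trans ((hc1 w).trans (hc0 w))), fun w => ?_,
    fun w j hj => ?_, fun w w' e1 e2 e3 => ?_, fun w w' hne j hj => ?_⟩⟩
  · exact (h1 w (Finset.mem_univ w)).trans
      (S.stem_mono ((hc3 w).trans (hc2 w))).length_le
  · exact (h2 (w, j) (by simp [hj])).imp (fun h => h.mono_stem (S.stem_mono (hc3 _)))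
      (fun h => h.mono_le (hc3 _))
  · obtain ⟨α, hα⟩ := hc0' w w' e1 e2 e3
    exact ⟨α, hα.mono_le ((hc3 w).trans ((hc2 w).trans (hc1 w)))
      ((hc3 w').trans ((hc2 w').trans (hc1 w')))⟩
  · exact h3 ((w, w'), j) (by simp [hj]) hne

/-- restriction of a branch -/
def rs (n : ℕ) (u : ℕ → Bool) : Fin n → Bool := fun i => u i

end

/-- T -/
theorem t_holds : TStmt.{u, v} := by
  intro G Y _ _ _ _ _ _ _ C P _ _ S hperf
  by_contra hcon
  apply hperf
  have h : ∀ w : P, ∃ a ≤ w, ∃ b ≤ w, ∃ α, C.Sep S α a b C.top C.top := by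
    intro w
    have := not_exists.mp hcon w
    unfold Ctx.Rel at this
    push Not at this
    obtain ⟨a, ha, b, hb, α, hs⟩ := this
    exact ⟨a, ha, b, hb, α, hs⟩
  choose st hst using exists_lev h
  let c : ∀ n, (Fin n → Bool) → P := fun n => Nat.rec (fun _ => Classical.arbitrary P) st n
  have hc : ∀ n, Lev C S n (c n) (c (n + 1)) := fun n => hst n (c n)
  have hanti : ∀ u : ℕ → Bool, Antitone (fun n => c n (rs n u)) := fun u =>
    antitone_nat_of_succ_le fun n => (hc n).le (rs (n + 1) u)
  have hlen : ∀ (u : ℕ → Bool) n, n ≤ (S.stem (c n (rs n u))).length := by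
    intro u n
    cases n with
    | zero => exact Nat.zero_le _
    | succ n => exact (hc n).len _
  have hlen' : ∀ (u : ℕ → Bool) m, ∃ n, m ≤ (S.stem (c n (rs n u))).length :=
    fun u m => ⟨m, hlen u m⟩
  choose F hF using fun u => S.exists_limit (hanti u) (hlen' u)
  -- no violations
  have hno : ∀ (α : Ordinal.{0}) (u v : ℕ → Bool) (k : G) (n V Z : ℕ), u ≠ v →
      k • C.f (F u) = C.f (F v) → C.Sep S α (c n (rs n u)) (c n (rs n v)) V Z →
      (∀ g ∈ C.B V, g * k⁻¹ ∈ C.B Z) → False := by
    intro α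
    induction α using WellFoundedLT.induction with
    | _ α ih =>
      intro u v k n V Z huv hk hs hVZ
      rw [sep_iff] at hs
      rcases hs with ⟨k0, h1, h2⟩ | ⟨V', hV', h1⟩
      · obtain ⟨g, hg, hg'⟩ := h1 (F u) (hF u n)
        have hh : C.Hit (C.f (F v)) Z k0 := by
          refine ⟨g * k⁻¹, hVZ g hg, ?_⟩
          rw [← hk, smul_smul, inv_mul_cancel_right]
          exact hg'
        obtain ⟨m, hm⟩ := hit_forces (hlen' v) (hF v) hh
        exact h2 (c (max m n) (rs (max m n) v)) (hanti v (le_max_right m n))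
          (hm.mono_stem (S.stem_mono (hanti v (le_max_left m n))))
      · obtain ⟨v0, hv0⟩ := C.nonempty_B V'
        have hO : IsOpen ((fun g => g * k) ⁻¹' C.B V') :=
          (C.isOpen_B V').preimage (continuous_mul_const k)
        have hm : v0 * k⁻¹ ∈ (fun g => g * k) ⁻¹' C.B V' := by
          change v0 * k⁻¹ * k ∈ C.B V'
          rwa [inv_mul_cancel_right]
        obtain ⟨Z', _, hZ2⟩ := C.exists_token hO hm
        have hZZ : C.B Z' ⊆ C.B Z := by
          intro g hg
          have := hVZ (g * k) (hV' (hZ2 hg))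
          rwa [mul_inv_cancel_right] at this
        -- a late level
        obtain ⟨d, hd⟩ : ∃ d, u d ≠ v d := by
          by_contra hcon
          push Not at hcon
          exact huv (funext hcon)
        set j := Nat.pair Z' V' with hj
        set N := max n (max j d) with hN
        have hne : rs (N + 1) u ≠ rs (N + 1) v := by
          intro he
          have hdN : d < N + 1 := by
            have : d ≤ N := (le_max_right j d).trans (le_max_right _ _)
            omega
          exact hd (congrFun he ⟨d, hdN⟩)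
        obtain ⟨a, ha, b, hb, htask⟩ := (hc N).task _ _ hne j (by
          have : j ≤ N := (le_max_left j d).trans (le_max_right _ _)
          omega)
        have ha' : a ≤ c n (rs n u) := ha.trans (hanti u (le_max_left _ _))
        have hb' : b ≤ c n (rs n v) := hb.trans (hanti v (le_max_left _ _))
        obtain ⟨a'', ha'', b'', hb'', β, hβ, hsep⟩ := h1 a ha' b hb' Z' hZZ
        have hu1 : (Nat.unpair j).1 = Z' := by rw [hj, Nat.unpair_pair]
        have hu2 : (Nat.unpair j).2 = V' := by rw [hj, Nat.unpair_pair]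
        rw [hu1, hu2] at htask
        have hfin := htask β ⟨a'', ha'', b'', hb'', hsep⟩
        refine ih β hβ v u k⁻¹ (N + 1) Z' V' huv.symm ?_ hfin ?_
        · rw [← hk, inv_smul_smul]
        · intro g hg
          rw [inv_inv]
          exact hZ2 hg
  refine ⟨F, ?_, ?_⟩
  · -- continuity
    refine continuous_pi fun i => ?_
    have e1 : (fun u => F u i) = (fun w : Fin (i + 1) → Bool =>
        (S.stem (c (i + 1) w)).getD i 0) ∘ (rs (i + 1)) := by
      funext u
      have hi : i < (S.stem (c (i + 1) (rs (i + 1) u))).length := hlen u (i + 1)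
      have := hF u (i + 1) i hi
      simp only [Function.comp]
      rw [← this, List.getD_eq_getElem _ _ hi]
    rw [e1]
    refine (continuous_of_discreteTopology).comp ?_
    exact continuous_pi fun k => continuous_apply _
  · intro u v huv g hg
    -- first difference
    classical
    have hex : ∃ d, u d ≠ v d := by
      by_contra hcon
      push Not at hcon
      exact huv (funext hcon)
    set d := Nat.find hex with hd
    have hdne : u d ≠ v d := Nat.find_spec hex
    have hlt : ∀ i < d, u i = v i := fun i hi => by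
      by_contra h
      exact Nat.find_min hex hi h
    cases hud : u d with
    | false =>
      have hvd : v d = true := by
        rw [hud] at hdne
        cases hv : v d
        · exact absurd hv.symm hdne
        · rfl
      obtain ⟨α, hα⟩ := (hc d).split (rs (d + 1) u) (rs (d + 1) v)
        (fun i => hlt i i.2) hud hvd
      exact hno α u v g (d + 1) C.top C.top huv hg hα (fun x _ => by rw [C.B_top]; trivial)
    | true =>
      have hvd : v d = false := by
        rw [hud] at hdne
        cases hv : v d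
        · rfl
        · exact absurd hv.symm hdne
      obtain ⟨α, hα⟩ := (hc d).split (rs (d + 1) v) (rs (d + 1) u)
        (fun i => (hlt i i.2).symm) hvd hud
      exact hno α v u g⁻¹ (d + 1) C.top C.top huv.symm (by rw [← hg, inv_smul_smul]) hα
        (fun x _ => by rw [C.B_top]; trivial)

end Pool.Agent.H15.HV
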